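import Pool.Agent.R781.CubeAQ
import Pool.Agent.K1H57.DW.Class

/-!
# The Singer-Hopf inequality for cubical manifolds whose vertex links satisfy Morse criteria

A finite cubical complex, given by its poset of cubes, all of whose vertex links are flag homology spheres, is a
closed aspherical homology manifold (its piecewise Euclidean metric is nonpositively curved).  We prove the
Singer-Hopf inequality when the link of each vertex is in the class `VQ D` of `Pool/Agent/K1H57/DW/Class.lean`, where
`D` is the set of the degrees `> m`. This class contains the earlier classes `AR (2 m)` and `MQ (m + 1)`, in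
particular the barycentric subdivisions of all triangulated spheres; the degrees may be treated one by one by
different decompositions, and it is closed under the Morse rules in single degrees, duality, vertex splittings,
gluings, joins, and adding and deleting vertices and edges under conditions on their links.
-/

set_option autoImplicit false

namespace Pool.Agent.Results.MP_9d0d86_gt.CubicalMorseLinks

open Pool.Agent.W497.FS Pool.Agent.W497.CC Pool.Agent.W907.SG Pool.Agent.R781.CubeAQ Pool.Agent.K1H57.DW
open Pool.Agent.TH652.Above (HSph chi_sign singer_of_above)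

/-- The link of the vertex `v` is the flag complex of a finite graph which is in the class `VQ` of the degrees `> m`,
and a real homology manifold with the real homology of the `(2 m - 1)`-sphere. -/
def MorseLink (m : ℕ) {P : Type} [PartialOrder P] (v : P) : Prop :=
  ∃ (V : Type) (_ : Fintype V) (_ : LinearOrder V) (G : SimpleGraph V),
    IsGraphLink v G ∧ HSph (2 * m) G ∧ VQ (fun i => m < i) G

/-- the Charney-Davis inequality for the flag homology spheres with the property -/
theorem cd {m : ℕ} {V : Type} [Fintype V] [LinearOrder V] {G : SimpleGraph V} (hS : HSph (2 * m) G)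
    (h : VQ (fun i => m < i) G) : 0 ≤ (-1 : ℚ) ^ m * chiW G :=
  chi_sign G fun i hi => singer_of_above hS (fun j hj => van_VQ h j (by omega)) i (by omega)

/-- The Singer-Hopf inequality for nonpositively curved cubical manifolds of dimension `2 m` each of whose vertex
links is in the class `VQ` of the degrees `> m`. -/
theorem result (m : ℕ) (P : Type) [Fintype P] [PartialOrder P] (dim : P → ℕ)
    (hP : IsCubical P dim) (hL : ∀ v : P, dim v = 0 → MorseLink m v) :
    0 ≤ (-1) ^ m * chi P dim := by
  classical
  have h1 : ∀ v : P, ∃ p : Σ n : ℕ, Finset (Finset (Fin n)), dim v = 0 →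
      IsLink v p.2 ∧ (∀ F ∈ p.2, ∀ F' : Finset (Fin p.1), F' ⊆ F → F' ∈ p.2) ∧ 0 ≤ (-1 : ℚ) ^ m * omega p.2 := by
    intro v
    by_cases hv : dim v = 0
    · obtain ⟨V, _, _, G, hG, hS, hA⟩ := hL v hv
      refine ⟨⟨Fintype.card V, fam (Fintype.equivFin V) G⟩, fun _ => ⟨isLink_fam _ hG, fam_down _ _, ?_⟩⟩
      rw [omega_fam]
      exact cd hS hA
    · exact ⟨⟨0, ∅⟩, fun h => absurd h hv⟩
  choose p hp using h1
  have h2 := chi_eq hP (fun v => (p v).1) (fun v => (p v).2) (fun v hv => (hp v hv).1)
    (fun v hv => (hp v hv).2.1)
  have h3 : (0 : ℚ) ≤ (-1) ^ m * ((chi P dim : ℤ) : ℚ) := by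
    rw [h2, Finset.mul_sum]
    exact Finset.sum_nonneg fun v hv => (hp v (Finset.mem_filter.mp hv).2).2.2
  exact_mod_cast h3

end Pool.Agent.Results.MP_9d0d86_gt.CubicalMorseLinks
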