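import Pool.Agent.K1H57.PS.Main

/-!
# The sign of the Gauss–Bonnet–Chern integrand for curvature tensors with a half turn

`HalfTurn m R` (`Pool/Agent/K1H57/PS/Main.lean`): the curvature tensor is invariant under the half
turn about a subspace `W` of codimension two (equivalently, it vanishes when an odd number of the
arguments lies in the plane `P = Wᗮ` and the others in `W`), the curvature operator is nonpositive
on the mixed bivectors `x ∧ u + y ∧ v` (`x, y ∈ P`, `u, v ∈ W`), the plane `P` is flat or has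
nonpositive curvature and `R` restricted to `W` has the Hopf sign, and `R` restricted to the
subspaces of codimension two of `W` has the Hopf sign. Nothing is required of the sectional
curvatures of the planes which are not in `P`, in `W` or spanned by a vector of `P` and one of `W`.

(1) In every even dimension at least four the integrand has the sign of the Hopf conjecture.
(2) Integrated form. (3) Dimension six: it is enough that the sectional curvature is nonpositive
on `P` and on the planes in `W`. (4) Dimension eight: it is enough that the sectional curvature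
vanishes on `P` and is nonpositive on the planes in the six-dimensional space `W`.
-/

set_option autoImplicit false

namespace Pool.Agent.Results.MP_9d0d86_gt.EvenSplitting

open Pool.Agent.W666.GB Pool.Agent.K1H57.PS

theorem result :
    (∀ (m : ℕ) (V : Type) [NormedAddCommGroup V] [InnerProductSpace ℝ V]
      (e : OrthonormalBasis (Fin m × Bool) ℝ V) (R : V → V → V → V → ℝ),
      2 ≤ m → AlgCurv R → HalfTurn m R → 0 ≤ (-1) ^ m * gbc e R) ∧
    (∀ (m : ℕ) (M : Type) [MeasurableSpace M] (μ : MeasureTheory.Measure M) (K : CurvField m M),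
      2 ≤ m → (∀ p, HalfTurn m (K.R p)) → 0 ≤ (-1) ^ m * ∫ p, K.gb p ∂μ) ∧
    (∀ (V : Type) [NormedAddCommGroup V] [InnerProductSpace ℝ V]
      (e : OrthonormalBasis (Fin 3 × Bool) ℝ V) (R : V → V → V → V → ℝ) (P : Submodule ℝ V),
      AlgCurv R → Module.finrank ℝ P = 2 → EvenSplit P R →
      (∀ x ∈ P, ∀ y ∈ P, ∀ u ∈ Pᗮ, ∀ v ∈ Pᗮ, R x u x u + 2 * R x u y v + R y v y v ≤ 0) →
      (∀ x ∈ P, ∀ y ∈ P, R x y x y ≤ 0) → (∀ u ∈ Pᗮ, ∀ v ∈ Pᗮ, R u v u v ≤ 0) →
      gbc e R ≤ 0) ∧
    (∀ (V : Type) [NormedAddCommGroup V] [InnerProductSpace ℝ V]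
      (e : OrthonormalBasis (Fin 4 × Bool) ℝ V) (R : V → V → V → V → ℝ) (P : Submodule ℝ V),
      AlgCurv R → Module.finrank ℝ P = 2 → EvenSplit P R →
      (∀ x ∈ P, ∀ y ∈ P, ∀ u ∈ Pᗮ, ∀ v ∈ Pᗮ, R x u x u + 2 * R x u y v + R y v y v ≤ 0) →
      (∀ x ∈ P, ∀ y ∈ P, R x y x y = 0) → (∀ u ∈ Pᗮ, ∀ v ∈ Pᗮ, R u v u v ≤ 0) →
      0 ≤ gbc e R) := by
  refine ⟨fun _ _ _ _ e _ hm hR h => half_turn hm e hR h,
    fun _ _ _ μ K hm h => field_half hm μ K h, ?_, ?_⟩
  · intro V _ _ e R P hR hP hE hN hκ hW
    have h := half_turn (m := 3) (by norm_num) e hR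
      ⟨P, hP, hE, hN, Or.inr ⟨hκ, hopfDim_of_sec hR hW (by norm_num)⟩,
        hopfDim_of_sec hR hW (by norm_num)⟩
    have h3 : ((-1 : ℝ)) ^ 3 = -1 := by norm_num
    rw [h3] at h
    linarith
  · intro V _ _ e R P hR hP hE hN hκ hW
    have h := half_turn (m := 4) (by norm_num) e hR
      ⟨P, hP, hE, hN, Or.inl hκ, hopfDim_of_sec hR hW (by norm_num)⟩
    have h4 : ((-1 : ℝ)) ^ 4 = 1 := by norm_num
    rwa [h4, one_mul] at h

end Pool.Agent.Results.MP_9d0d86_gt.EvenSplitting
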