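import Pool.Agent.K1H57.HT.Field

/-!
# The Singer-Hopf sign for a nonpositive curvature operator plus a torus invariant tensor

`TorusInv T` (`Pool/Agent/K1H57/HT/Vec.lean`): the curvature tensor `T` lives on a subspace which is
the orthogonal sum of three planes, and is invariant under the quarter turns of the three planes
(equivalently, under the maximal torus of the special orthogonal group of the subspace); the quarter
turn `quarter a b` of the plane of the orthonormal vectors `a`, `b` maps `a` to `b`, `b` to `-a`, and
fixes the orthogonal complement of the plane.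

`PlusTorus δ R`: `-R = P + T`, where the curvature operator of the algebraic curvature tensor `P` is at
least `δ`, and `T` is an algebraic curvature tensor with `TorusInv T` whose *sectional* curvatures are
nonnegative. (The curvature operator of `T` may have negative eigenvalues.)

(1) Superadditivity in every even dimension: if `P` has nonnegative curvature operator and `T` is as
above, then the Gauss–Bonnet–Chern integrand of `P + T` is at least the sum of those of `P` and `T`,
and that of `T` is nonnegative.
(2) If `R` satisfies `PlusTorus δ R`, then `(-1)^m` times the Gauss–Bonnet–Chern integrand of `R` is at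
least its value for constant curvature `-δ`.
(3) The integrated forms, with the strict inequality.
-/

set_option autoImplicit false

namespace Pool.Agent.Results.MP_9d0d86_gt.MaximalTorus

open Pool.Agent.W666.GB Pool.Agent.W669.HD Pool.Agent.Y195.HF Pool.Agent.K1H57.HT MeasureTheory

theorem result :
    -- (1) superadditivity
    (∀ (m : ℕ) (V : Type) [NormedAddCommGroup V] [InnerProductSpace ℝ V]
      (e : OrthonormalBasis (Fin m × Bool) ℝ V) (P T : V → V → V → V → ℝ),
      AlgCurv P → OpNonneg P → AlgCurv T → (∀ x y, 0 ≤ T x y x y) → TorusInv T →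
        0 ≤ gbc e T ∧ gbc e P + gbc e T ≤ gbc e (addT P T)) ∧
    -- (2) the pointwise inequality
    (∀ (m : ℕ) (V : Type) [NormedAddCommGroup V] [InnerProductSpace ℝ V]
      (e : OrthonormalBasis (Fin m × Bool) ℝ V) (R : V → V → V → V → ℝ) (δ : ℝ),
      AlgCurv R → 0 ≤ δ → PlusTorus δ R → roundGB m δ ≤ (-1) ^ m * gbc e R) ∧
    -- (3) the integrated forms
    (∀ (m : ℕ) (M : Type) [MeasurableSpace M] (μ : Measure M) (K : CurvField m M) (δ : M → ℝ),
      (∀ p, 0 ≤ δ p ∧ PlusTorus (δ p) (K.R p)) →
      0 ≤ (-1) ^ m * ∫ p, K.gb p ∂μ ∧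
      (Integrable K.gb μ → Integrable (fun p => roundGB m (δ p)) μ →
        ∫ p, roundGB m (δ p) ∂μ ≤ (-1) ^ m * ∫ p, K.gb p ∂μ) ∧
      (Integrable K.gb μ → μ {p | 0 < δ p} ≠ 0 → 0 < (-1) ^ m * ∫ p, K.gb p ∂μ)) :=
  ⟨fun _ _ _ _ e _ _ hP hPn hT hK hI => super e hP hPn hT hK hI,
    fun _ _ _ _ e _ _ hR hδ h => torus_bound e hR hδ h,
    fun _ _ _ μ K δ h => field_torus μ K δ h⟩

end Pool.Agent.Results.MP_9d0d86_gt.MaximalTorus
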